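import Mathlib

/-!
Player 2 wins the Tribonacci Zeckendorf game on `n` for every `n ≥ 10`.
-/

namespace Pool.Agent.Results.MP_7f8e47_co.TribonacciPlayerTwo

/-- The terms `S 1 = 1, S 2 = 2, S 3 = 4`, `S (i+1) = S i + S (i-1) + S (i-2)`
(`S 0 = 0` is not used in the game). -/
def S : ℕ → ℕ
  | 0 => 0
  | 1 => 1
  | 2 => 2
  | 3 => 4
  | (i + 4) => S (i + 3) + S (i + 2) + S (i + 1)

/-- The rules of the Tribonacci game: `Rule A B` says that the terms of the multiset `A` may be
replaced by the terms of the multiset `B`. -/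
inductive Rule : Multiset ℕ → Multiset ℕ → Prop
  | r1 (i : ℕ) (hi : 3 ≤ i) : Rule {S (i - 2), S (i - 1), S i} {S (i + 1)}
  | r2 : Rule {S 1, S 1, S 2} {S 3}
  | r3 : Rule {S 1, S 1} {S 2}
  | r4 : Rule {S 2, S 2} {S 3}
  | r5 : Rule {S 3, S 3} {S 4, S 1}
  | r6 (i : ℕ) (hi : 4 ≤ i) : Rule {S i, S i} {S (i + 1), S (i - 3)}

/-- A move from the position `P` to the position `Q`: remove `A` and insert `B` for some rule
`A → B`. -/
def Move (P Q : Multiset ℕ) : Prop := ∃ A B R : Multiset ℕ, Rule A B ∧ P = A + R ∧ Q = B + R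

/-- The player who is to move at `P` has a winning strategy (normal play): there is a move to a
position `Q` such that after every reply the same player again has a winning strategy. -/
inductive MoverWins : Multiset ℕ → Prop
  | step (P Q : Multiset ℕ) (h : Move P Q) (hQ : ∀ R, Move Q R → MoverWins R) : MoverWins P

/-- The starting position of the game on `n`: `n` copies of `S 1`. -/
def start (n : ℕ) : Multiset ℕ := Multiset.replicate n (S 1)

/-- Player 2 has a winning strategy in the game on `n`: after every first move of Player 1,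
Player 2, who is then to move, has a winning strategy. -/
def PlayerTwoWins (n : ℕ) : Prop := ∀ Q, Move (start n) Q → MoverWins Q

theorem S_lt (i : ℕ) : S i < S (i + 1) := by
  induction i using Nat.strong_induction_on with
  | _ i ih =>
    match i with
    | 0 => decide
    | 1 => decide
    | 2 => decide
    | 3 => decide
    | (j + 4) =>
      have h2 : S (j + 2) < S (j + 3) := ih (j + 2) (by omega)
      have e1 : S (j + 4 + 1) = S (j + 4) + S (j + 3) + S (j + 2) := by
        show S (j + 1 + 4) = _
        rw [S]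
      omega

theorem S_strictMono : StrictMono S := strictMono_nat_of_lt_succ S_lt

theorem S_inj {i j : ℕ} : S i = S j ↔ i = j := S_strictMono.injective.eq_iff

/-- The measure of a position, which decreases under every move. -/
noncomputable def meas (P : Multiset ℕ) : ℕ := (P.map (fun v => Function.invFun S v + 1)).sum

theorem inv_S (i : ℕ) : Function.invFun S (S i) = i :=
  Function.leftInverse_invFun S_strictMono.injective i

theorem meas_lt {P Q : Multiset ℕ} (h : Move P Q) : meas Q < meas P := by
  obtain ⟨A, B, R, hr, rfl, rfl⟩ := h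
  unfold meas
  rw [Multiset.map_add, Multiset.map_add, Multiset.sum_add, Multiset.sum_add]
  apply Nat.add_lt_add_right
  cases hr with
  | r1 i hi =>
    simp only [Multiset.insert_eq_cons, Multiset.map_cons, Multiset.map_singleton,
      Multiset.sum_cons, Multiset.sum_singleton, inv_S]
    omega
  | r2 =>
    simp only [Multiset.insert_eq_cons, Multiset.map_cons, Multiset.map_singleton,
      Multiset.sum_cons, Multiset.sum_singleton, inv_S]
    omega
  | r3 =>
    simp only [Multiset.insert_eq_cons, Multiset.map_cons, Multiset.map_singleton,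
      Multiset.sum_cons, Multiset.sum_singleton, inv_S]
    omega
  | r4 =>
    simp only [Multiset.insert_eq_cons, Multiset.map_cons, Multiset.map_singleton,
      Multiset.sum_cons, Multiset.sum_singleton, inv_S]
    omega
  | r5 =>
    simp only [Multiset.insert_eq_cons, Multiset.map_cons, Multiset.map_singleton,
      Multiset.sum_cons, Multiset.sum_singleton, inv_S]
    omega
  | r6 i hi =>
    simp only [Multiset.insert_eq_cons, Multiset.map_cons, Multiset.map_singleton,
      Multiset.sum_cons, Multiset.sum_singleton, inv_S]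
    omega

/-- Determinacy: either the mover wins, or every move leads to a position that is won for the
next player. -/
theorem determined (P : Multiset ℕ) : MoverWins P ∨ ∀ Q, Move P Q → MoverWins Q := by
  induction hm : meas P using Nat.strong_induction_on generalizing P with
  | _ m ih =>
    by_cases h : ∀ Q, Move P Q → MoverWins Q
    · exact Or.inr h
    · left
      push Not at h
      obtain ⟨Q, hPQ, hQ⟩ := h
      have := ih (meas Q) (by rw [← hm]; exact meas_lt hPQ) Q rfl
      rcases this with h1 | h1
      · exact absurd h1 hQ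
      · exact MoverWins.step P Q hPQ h1

/-- A position from which the mover wins has a move to a position that is lost for the next
player. -/
theorem lost_not_wins (P : Multiset ℕ) : MoverWins P → ¬ ∀ Q, Move P Q → MoverWins Q := by
  intro h
  induction h with
  | step P Q hPQ hQ ih =>
    intro hall
    have h1 := hall Q hPQ
    cases h1 with
    | step _ R hQR hR => exact ih R hQR hR

/-- Positions with `a` terms `S 1`, `b` terms `S 2`, `c` terms `S 3` and `d` terms `S 4`. -/
def pos (a b c d : ℕ) : Multiset ℕ :=
  Multiset.replicate a 1 + Multiset.replicate b 2 + Multiset.replicate c 4 +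
    Multiset.replicate d 7

theorem S1 : S 1 = 1 := rfl
theorem S2 : S 2 = 2 := rfl
theorem S3 : S 3 = 4 := rfl
theorem S4 : S 4 = 7 := rfl

theorem count_pos (a b c d x : ℕ) : Multiset.count x (pos a b c d) =
    (if 1 = x then a else 0) + (if 2 = x then b else 0) + (if 4 = x then c else 0) +
      (if 7 = x then d else 0) := by
  simp [pos, Multiset.count_replicate]

theorem mem_pos {a b c d x : ℕ} (h : x ∈ pos a b c d) :
    (x = 1 ∧ 0 < a) ∨ (x = 2 ∧ 0 < b) ∨ (x = 4 ∧ 0 < c) ∨ (x = 7 ∧ 0 < d) := by
  simp only [pos, Multiset.mem_add, Multiset.mem_replicate] at h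
  omega

theorem S_eq_one {i : ℕ} (h : S i = 1) : i = 1 := S_inj.1 (h.trans S1.symm)
theorem S_eq_two {i : ℕ} (h : S i = 2) : i = 2 := S_inj.1 (h.trans S2.symm)
theorem S_eq_four {i : ℕ} (h : S i = 4) : i = 3 := S_inj.1 (h.trans S3.symm)
theorem S_eq_seven {i : ℕ} (h : S i = 7) : i = 4 := S_inj.1 (h.trans S4.symm)

theorem mem_pos_S {a b c d i : ℕ} (h : S i ∈ pos a b c d) :
    (i = 1 ∧ 0 < a) ∨ (i = 2 ∧ 0 < b) ∨ (i = 3 ∧ 0 < c) ∨ (i = 4 ∧ 0 < d) := by
  rcases mem_pos h with ⟨h1, h2⟩ | ⟨h1, h2⟩ | ⟨h1, h2⟩ | ⟨h1, h2⟩
  · exact Or.inl ⟨S_eq_one h1, h2⟩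
  · exact Or.inr (Or.inl ⟨S_eq_two h1, h2⟩)
  · exact Or.inr (Or.inr (Or.inl ⟨S_eq_four h1, h2⟩))
  · exact Or.inr (Or.inr (Or.inr ⟨S_eq_seven h1, h2⟩))

/-- All moves from `pos a 0 c d` when `c ≤ 2`, `d ≤ 1` and `c d = 0`. -/
theorem moves_zero {a c d : ℕ} (hc : c ≤ 2) (hd : d ≤ 1) {Q : Multiset ℕ}
    (h : Move (pos a 0 c d) Q) :
    (2 ≤ a ∧ Q = pos (a - 2) 1 c d) ∨ (c = 2 ∧ Q = pos (a + 1) 0 0 (d + 1)) := by
  obtain ⟨A, B, R, hr, hP, rfl⟩ := h
  have hmem : ∀ x ∈ A, x ∈ pos a 0 c d := by
    intro x hx
    rw [hP]
    exact Multiset.mem_add.2 (Or.inl hx)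
  have hcount : ∀ x, Multiset.count x A + Multiset.count x R =
      (if 1 = x then a else 0) + (if 2 = x then 0 else 0) + (if 4 = x then c else 0) +
      (if 7 = x then d else 0) := by
    intro x
    rw [← count_pos, hP, Multiset.count_add]
  cases hr with
  | r1 i hi =>
    exfalso
    have h2 := mem_pos_S (hmem (S (i - 1)) (by simp))
    have h3 := mem_pos_S (hmem (S i) (by simp))
    have h4 := mem_pos_S (hmem (S (i - 2)) (by simp))
    omega
  | r2 =>
    exfalso
    have h2 := mem_pos_S (hmem (S 2) (by simp))
    omega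
  | r3 =>
    left
    have h1 := hcount 1
    rw [S1] at h1
    simp only [Multiset.insert_eq_cons, Multiset.count_cons_self,
      Multiset.count_singleton_self, if_true] at h1
    refine ⟨by simp at h1; omega, ?_⟩
    ext x
    have hx := hcount x
    rw [Multiset.count_add, count_pos]
    simp only [S1, S2, Multiset.insert_eq_cons, Multiset.count_cons,
      Multiset.count_singleton] at hx ⊢
    by_cases x1 : x = 1
    · subst x1; simp at hx ⊢; omega
    · by_cases x2 : x = 2
      · subst x2; simp at hx ⊢; omega
      · have y1 : ¬ (1 = x) := fun h => x1 h.symm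
        have y2 : ¬ (2 = x) := fun h => x2 h.symm
        simp [x1, x2, y1, y2] at hx ⊢
        omega
  | r4 =>
    exfalso
    have h2 := mem_pos_S (hmem (S 2) (by simp))
    omega
  | r5 =>
    right
    have h1 := hcount 4
    rw [S3] at h1
    simp only [Multiset.insert_eq_cons, Multiset.count_cons_self,
      Multiset.count_singleton_self, if_true] at h1
    have hc2 : c = 2 := by simp at h1; omega
    refine ⟨hc2, ?_⟩
    subst hc2
    ext x
    have hx := hcount x
    rw [Multiset.count_add, count_pos]
    simp only [S1, S3, S4, Multiset.insert_eq_cons, Multiset.count_cons,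
      Multiset.count_singleton] at hx ⊢
    by_cases x1 : x = 1
    · subst x1; simp at hx ⊢; omega
    · by_cases x2 : x = 4
      · subst x2; simp at hx ⊢; omega
      · by_cases x3 : x = 7
        · subst x3; simp at hx ⊢; omega
        · have y1 : ¬ (1 = x) := fun h => x1 h.symm
          have y2 : ¬ (4 = x) := fun h => x2 h.symm
          have y3 : ¬ (7 = x) := fun h => x3 h.symm
          simp [x1, x2, x3, y1, y2, y3] at hx ⊢
          omega
  | r6 i hi =>
    exfalso
    have h2 := mem_pos_S (hmem (S i) (by simp))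
    have hi4 : i = 4 := by omega
    subst hi4
    have h1 := hcount 7
    rw [S4] at h1
    simp only [Multiset.insert_eq_cons, Multiset.count_cons_self,
      Multiset.count_singleton_self, if_true] at h1
    simp at h1
    omega

/-- A tool to build moves. -/
theorem move_of {P Q A B : Multiset ℕ} (hr : Rule A B) (hle : A ≤ P) (hQ : Q = P - A + B) :
    Move P Q :=
  ⟨A, B, P - A, hr, (add_tsub_cancel_of_le hle).symm, by rw [hQ, add_comm]⟩

theorem rule_start (n : ℕ) (Q : Multiset ℕ) (h : Move (start n) Q) : Q = pos (n - 2) 1 0 0 := by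
  have e : start n = pos n 0 0 0 := by simp [start, pos, S1]
  rw [e] at h
  rcases moves_zero (by omega) (by omega) h with h1 | h1
  · exact h1.2
  · omega

/-- `pos (a+2) 1 c d → pos a 0 (c+1) d` by rule 2. -/
theorem move_r2 (a b c d : ℕ) : Move (pos (a + 2) (b + 1) c d) (pos a b (c + 1) d) := by
  refine ⟨{S 1, S 1, S 2}, {S 3}, pos a b c d, Rule.r2, ?_, ?_⟩
  · ext x
    simp only [Multiset.count_add, count_pos, S1, S2, Multiset.insert_eq_cons,
      Multiset.count_cons, Multiset.count_singleton]
    by_cases x1 : x = 1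
    · subst x1; simp; omega
    · by_cases x2 : x = 2
      · subst x2; simp; omega
      · have y1 : ¬ (1 = x) := fun h => x1 h.symm
        have y2 : ¬ (2 = x) := fun h => x2 h.symm
        simp [x1, x2, y1, y2]
  · ext x
    simp only [Multiset.count_add, count_pos, S3, Multiset.count_singleton]
    by_cases x1 : x = 4
    · subst x1; simp; omega
    · have y1 : ¬ (4 = x) := fun h => x1 h.symm
      simp [x1, y1]

/-- Rule 1 with `i = 3`. -/
theorem move_r1 (a b c d : ℕ) : Move (pos (a + 1) (b + 1) (c + 1) d) (pos a b c (d + 1)) := by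
  refine ⟨{S (3 - 2), S (3 - 1), S 3}, {S (3 + 1)}, pos a b c d, Rule.r1 3 le_rfl, ?_, ?_⟩
  · ext x
    simp only [Multiset.count_add, count_pos, Multiset.insert_eq_cons,
      Multiset.count_cons, Multiset.count_singleton, show S (3 - 2) = 1 from rfl,
      show S (3 - 1) = 2 from rfl, S3]
    by_cases x1 : x = 1
    · subst x1; simp; omega
    · by_cases x2 : x = 2
      · subst x2; simp; omega
      · by_cases x3 : x = 4
        · subst x3; simp; omega
        · have y1 : ¬ (1 = x) := fun h => x1 h.symm
          have y2 : ¬ (2 = x) := fun h => x2 h.symm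
          have y3 : ¬ (4 = x) := fun h => x3 h.symm
          simp [x1, x2, x3, y1, y2, y3]
  · ext x
    simp only [Multiset.count_add, count_pos, show S (3 + 1) = 7 from rfl,
      Multiset.count_singleton]
    by_cases x1 : x = 7
    · subst x1; simp; omega
    · have y1 : ¬ (7 = x) := fun h => x1 h.symm
      simp [x1, y1]

/-- Rule 5. -/
theorem move_r5 (a b c d : ℕ) : Move (pos a b (c + 2) d) (pos (a + 1) b c (d + 1)) := by
  refine ⟨{S 3, S 3}, {S 4, S 1}, pos a b c d, Rule.r5, ?_, ?_⟩
  · ext x
    simp only [Multiset.count_add, count_pos, S3, Multiset.insert_eq_cons,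
      Multiset.count_cons, Multiset.count_singleton]
    by_cases x1 : x = 4
    · subst x1; simp; omega
    · have y1 : ¬ (4 = x) := fun h => x1 h.symm
      simp [x1, y1]
  · ext x
    simp only [Multiset.count_add, count_pos, S4, S1, Multiset.insert_eq_cons,
      Multiset.count_cons, Multiset.count_singleton]
    by_cases x1 : x = 1
    · subst x1; simp; omega
    · by_cases x2 : x = 7
      · subst x2; simp; omega
      · have y1 : ¬ (1 = x) := fun h => x1 h.symm
        have y2 : ¬ (7 = x) := fun h => x2 h.symm
        simp [x1, x2, y1, y2]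

/-- Player 2 has a winning strategy in the Tribonacci game on every `n ≥ 10`. -/
theorem result (n : ℕ) (hn : 10 ≤ n) : PlayerTwoWins n := by
  intro Q hQ
  have hQ' := rule_start n Q hQ
  rw [hQ']
  by_contra hX
  obtain ⟨k, rfl⟩ : ∃ k, n = k + 10 := ⟨n - 10, by omega⟩
  rw [show k + 10 - 2 = k + 8 by omega] at hX
  -- `X = (k+8,1)` is lost for the mover
  have hX' := (determined (pos (k + 8) 1 0 0)).resolve_left hX
  -- `B = (k+6,0,1)` is won for the mover, its only option is `C = (k+4,1,1)`
  have hB := hX' _ (move_r2 (k + 6) 0 0 0)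
  have hC : ∀ R, Move (pos (k + 4) 1 1 0) R → MoverWins R := by
    cases hB with
    | step _ C hBC hC =>
      rcases moves_zero (by omega) (by omega) hBC with ⟨-, h2⟩ | ⟨h1, -⟩
      · rw [show k + 6 - 2 = k + 4 by omega, zero_add] at h2
        rw [← h2]
        exact hC
      · omega
  -- `D1 = (k+3,0,0,1)`, with only option `E1 = (k+1,1,0,1)`
  have hD1 := hC _ (move_r1 (k + 3) 0 0 0)
  have hE1 : ∀ R, Move (pos (k + 1) 1 0 1) R → MoverWins R := by
    cases hD1 with
    | step _ C hBC hC =>
      rcases moves_zero (by omega) (by omega) hBC with ⟨-, h2⟩ | ⟨h1, -⟩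
      · rw [show k + 3 - 2 = k + 1 by omega, zero_add] at h2
        rw [← h2]
        exact hC
      · omega
  -- `D2 = (k+2,0,2)`, with options `E2 = (k,1,2)` and `D1`
  have hD2 := hC _ (move_r2 (k + 2) 0 1 0)
  have hE2 : ∀ R, Move (pos k 1 2 0) R → MoverWins R := by
    cases hD2 with
    | step _ C hBC hC =>
      rcases moves_zero (by omega) (by omega) hBC with ⟨-, h2⟩ | ⟨-, h2⟩
      · rw [show k + 2 - 2 = k by omega, show 1 + 1 = 2 by norm_num] at h2
        rw [← h2]
        exact hC
      · exfalso
        rw [show k + 2 + 1 = k + 3 by omega] at h2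
        rw [h2] at hC
        exact lost_not_wins _ hD1 hC
  -- but `E2 → E1` by rule 5
  have h5 := hE2 _ (move_r5 k 1 0 0)
  exact lost_not_wins _ h5 hE1

end Pool.Agent.Results.MP_7f8e47_co.TribonacciPlayerTwo
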